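import Pool.Agent.Helper69.HA.Defs2

/-!
# Project HA, module HA-7: the restrictions of conditions
-/

set_option autoImplicit false
set_option linter.unusedSectionVars false

namespace Pool.Agent.Helper69.HA

open Set Pool.Agent.Helper33.HM Pool.Agent.Helper33.HMG Pool.Agent.Helper32.HB
open Pool.Agent.Helper52.MA (El IsOmega1 setsM pairN numN on wN setN st)

universe u

section Forcing

variable {I : Type u} [LinearOrder I] [WellFoundedLT I] {Ω : Type} [LinearOrder Ω]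
  {e : Ω → ℕ → Ω → Prop} {code : I → Ω → Set (Cond I Ω)}

theorem red_f (A : Set I) (β : Ω) (p : PC e code) {i : I} (h : i ∈ A) :
    (red A β p).f i = cut β (p.f i) := if_pos h

theorem red_f_not (A : Set I) (β : Ω) (p : PC e code) {i : I} (h : i ∉ A) :
    (red A β p).f i = Dat.emp := if_neg h

theorem red_Dv_fun {i j j' : I} {δ : Ω} {v v' : Bool} {p : PC e code} (h : p ∈ Dv i δ j v)
    (h' : p ∈ Dv i δ j' v') : j = j' ∧ v = v' := by
  rw [mem_Dv] at h h'
  obtain ⟨h1, h2, h3, h4⟩ := h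
  obtain ⟨h1', h2', h3', h4'⟩ := h'
  have hj : j = j' := by
    rcases lt_trichotomy j j' with hl | hl | hl
    · exact absurd h2 (h3' j hl p le_rfl)
    · exact hl
    · exact absurd h2' (h3 j' hl p le_rfl)
  refine ⟨hj, ?_⟩
  cases v <;> cases v'
  · rfl
  · rw [if_pos rfl] at h4'
    rw [if_neg (by simp)] at h4
    exact absurd h4' (h4 p le_rfl)
  · rw [if_pos rfl] at h4
    rw [if_neg (by simp)] at h4'
    exact absurd h4 (h4' p le_rfl)
  · rfl

theorem le_red (A : Set I) (β : Ω) (p : PC e code) : p ≤ red A β p := by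
  rw [PC.le_iff]
  intro i
  by_cases hi : i ∈ A
  · rw [red_f A β p hi]
    refine ⟨⟨fun δ m a h => ?_, fun ξ n h => ?_, fun δ n h => h.2⟩, fun ξ n δ h1 h2 h3 => ?_⟩
    · by_cases hδ : δ < β
      · simpa [cut, hδ] using h
      · simp [cut, hδ] at h
    · by_cases hξ : ξ < β
      · simpa [cut, hξ] using h
      · simp [cut, hξ] at h
    · have hξ : ¬ ξ < β := by
        intro hξ
        have h4 : (p.f i).φ ξ = none := by simpa [cut, hξ] using h2
        rw [h4] at h1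
        exact absurd h1 (by simp)
      exact Cer.above i δ ξ (lt_of_lt_of_le h3.1 (not_lt.1 hξ))
  · rw [red_f_not A β p hi]
    exact ⟨Dat.le_emp _, fun ξ n δ _ _ h => h.elim⟩

theorem in_red (A : Set I) (β : Ω) (p : PC e code) : In A β (red A β p) := by
  refine ⟨fun i hi => ?_, fun i δ m h => ?_, fun i ξ h => ?_, fun i δ n h => ?_⟩
  · by_contra hA
    exact hi (red_f_not A β p hA)
  · by_cases hi : i ∈ A
    · rw [red_f A β p hi] at h
      by_contra hδ
      exact h (by simp [cut, hδ])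
    · rw [red_f_not A β p hi] at h
      exact absurd rfl h
  · by_cases hi : i ∈ A
    · rw [red_f A β p hi] at h
      by_contra hξ
      exact h (by simp [cut, hξ])
    · rw [red_f_not A β p hi] at h
      exact absurd rfl h
  · by_cases hi : i ∈ A
    · rw [red_f A β p hi] at h
      exact h.1
    · rw [red_f_not A β p hi] at h
      exact h.elim

theorem red_finite (p : PC e code) :
    {z : I × Ω × ℕ | (p.f z.1).F z.2.1 z.2.2}.Finite := by
  have h1 : {z : I × Ω × ℕ | (p.f z.1).F z.2.1 z.2.2} ⊆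
      ⋃ i ∈ {i | p.f i ≠ Dat.emp}, (fun w : Ω × ℕ => (i, w)) '' {w | (p.f i).F w.1 w.2} := by
    rintro ⟨i, w⟩ hz
    have hz' : (p.f i).F w.1 w.2 := hz
    have hi : p.f i ≠ Dat.emp := by
      intro h
      rw [h] at hz'
      exact hz'
    refine mem_iUnion₂.2 ⟨i, hi, w, hz', rfl⟩
  refine Set.Finite.subset ?_ h1
  exact Set.Finite.biUnion p.c.fin fun i _ => ((p.f i).finF).image _

/-- The list of decisions of a nice condition, for the reflection. -/
theorem exists_list {A : Set I} {β : Ω} (hA : Good e code A β) {p : PC e code} (hp : Nice p) :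
    ∃ π : List (I × Ω × I × Bool), (∀ z ∈ π, z.1 ∈ A ∧ z.2.1 < β ∧ z.2.2.1 ∈ A) ∧
      (∀ z ∈ π, (∃ n, (p.f z.1).F z.2.1 n) ∧ p ∈ Dv z.1 z.2.1 z.2.2.1 z.2.2.2) ∧
      ∀ i ∈ A, ∀ γ, γ < β → ∀ n, (p.f i).F γ n → ∀ k v, p ∈ Dv i γ k v → (i, γ, k, v) ∈ π := by
  have hT : {z : I × Ω × I × Bool | z.1 ∈ A ∧ z.2.1 < β ∧ (∃ n, (p.f z.1).F z.2.1 n) ∧
      p ∈ Dv z.1 z.2.1 z.2.2.1 z.2.2.2}.Finite := by
    have h1 : ∀ z : I × Ω × ℕ, ∃ k v, (p.f z.1).F z.2.1 z.2.2 → p ∈ Dv z.1 z.2.1 k v := by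
      intro z
      by_cases hz : (p.f z.1).F z.2.1 z.2.2
      · obtain ⟨k, v, h⟩ := hp.n1 _ _ _ hz
        exact ⟨k, v, fun _ => h⟩
      · exact ⟨z.1, true, fun h => absurd h hz⟩
    choose k v hkv using h1
    refine ((red_finite p).image fun z => (z.1, z.2.1, k z, v z)).subset ?_
    rintro ⟨i, γ, k', v'⟩ ⟨-, -, ⟨n, hn⟩, hD⟩
    refine ⟨(i, γ, n), hn, ?_⟩
    obtain ⟨h2, h3⟩ := red_Dv_fun (hkv (i, γ, n) hn) hD
    simp only [Prod.mk.injEq, true_and]
    exact ⟨h2, h3⟩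
  refine ⟨hT.toFinset.toList, fun z hz => ?_, fun z hz => ?_, fun i hi γ hγ n hn k v hD => ?_⟩
  · rw [Finset.mem_toList, Set.Finite.mem_toFinset] at hz
    exact ⟨hz.1, hz.2.1, hA.idx _ hz.1 _ hz.2.1 p _ _ hz.2.2.2⟩
  · rw [Finset.mem_toList, Set.Finite.mem_toFinset] at hz
    exact hz.2.2
  · rw [Finset.mem_toList, Set.Finite.mem_toFinset]
    exact ⟨hi, hγ, ⟨n, hn⟩, hD⟩

end Forcing

end Pool.Agent.Helper69.HA
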